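import Mathlib
import Pool.Agent.KS6_82.BN.A

set_option autoImplicit false

namespace Pool.Agent.Results.MP_a6e7fb_an.AllMetrizable

open TopologicalSpace Pool.Agent.H.MP_a0704c_an

lemma one (K L : Type) [TopologicalSpace K] [CompactSpace K] [MetrizableSpace K] [Nonempty K]
    [TopologicalSpace L] [CompactSpace L] [T2Space L] :
    Nonempty (C(StoneCech ℕ × StoneCech ℕ × L × K, ℝ) ≃L[ℝ] C(StoneCech ℕ × StoneCech ℕ × L, ℝ)) := by
  let _ := metrizableSpaceMetric K
  obtain ⟨a⟩ := Pool.Agent.KS6_82.BN.absorbK K L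
  let h1 : ((L × (StoneCech ℕ × StoneCech ℕ)) × K) ≃ₜ (StoneCech ℕ × StoneCech ℕ × L × K) :=
    { toFun := fun z => (z.1.2.1, z.1.2.2, z.1.1, z.2)
      invFun := fun z => ((z.2.2.1, (z.1, z.2.1)), z.2.2.2)
      left_inv := fun _ => rfl
      right_inv := fun _ => rfl
      continuous_toFun := by fun_prop
      continuous_invFun := by fun_prop }
  let h2 : (L × (StoneCech ℕ × StoneCech ℕ)) ≃ₜ (StoneCech ℕ × StoneCech ℕ × L) :=
    { toFun := fun z => (z.2.1, z.2.2, z.1)
      invFun := fun z => (z.2.2, (z.1, z.2.1))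
      left_inv := fun _ => rfl
      right_inv := fun _ => rfl
      continuous_toFun := by fun_prop
      continuous_invFun := by fun_prop }
  exact ⟨((hiso h1).trans a).trans (hiso h2).symm⟩

lemma two (I K : Type) [Nontrivial I] [TopologicalSpace K] [CompactSpace K] [MetrizableSpace K]
    [Nonempty K] : Nonempty (C((I → StoneCech ℕ) × K, ℝ) ≃L[ℝ] C(I → StoneCech ℕ, ℝ)) := by
  classical
  obtain ⟨i, j, hij⟩ := exists_pair_ne I
  let I' : Type := {b : {a : I // a ≠ i} // b ≠ ⟨j, hij.symm⟩}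
  let h : (I → StoneCech ℕ) ≃ₜ (StoneCech ℕ × StoneCech ℕ × (I' → StoneCech ℕ)) :=
    (Homeomorph.funSplitAt (StoneCech ℕ) i).trans ((Homeomorph.refl (StoneCech ℕ)).prodCongr
      (Homeomorph.funSplitAt (StoneCech ℕ) (⟨j, hij.symm⟩ : {a : I // a ≠ i})))
  let h' : ((I → StoneCech ℕ) × K) ≃ₜ (StoneCech ℕ × StoneCech ℕ × (I' → StoneCech ℕ) × K) :=
    (h.prodCongr (.refl K)).trans
    { toFun := fun z => (z.1.1, z.1.2.1, z.1.2.2, z.2)
      invFun := fun z => ((z.1, z.2.1, z.2.2.1), z.2.2.2)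
      left_inv := fun _ => rfl
      right_inv := fun _ => rfl
      continuous_toFun := by fun_prop
      continuous_invFun := by fun_prop }
  obtain ⟨a⟩ := one K (I' → StoneCech ℕ)
  exact ⟨((hiso h').symm.trans a).trans (hiso h)⟩

lemma three (K : Type) [TopologicalSpace K] [CompactSpace K] [MetrizableSpace K] [Nonempty K] :
    Nonempty (C(StoneCech ℕ × StoneCech ℕ × K, ℝ) ≃L[ℝ] C(StoneCech ℕ × StoneCech ℕ, ℝ)) := by
  obtain ⟨a⟩ := one K Unit
  let h1 : (StoneCech ℕ × StoneCech ℕ × K) ≃ₜ (StoneCech ℕ × StoneCech ℕ × Unit × K) :=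
    { toFun := fun z => (z.1, z.2.1, (), z.2.2)
      invFun := fun z => (z.1, z.2.1, z.2.2.2)
      left_inv := fun _ => rfl
      right_inv := fun _ => rfl
      continuous_toFun := by fun_prop
      continuous_invFun := by fun_prop }
  let h2 : (StoneCech ℕ × StoneCech ℕ) ≃ₜ (StoneCech ℕ × StoneCech ℕ × Unit) :=
    { toFun := fun z => (z.1, z.2, ())
      invFun := fun z => (z.1, z.2.1)
      left_inv := fun _ => rfl
      right_inv := fun _ => rfl
      continuous_toFun := by fun_prop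
      continuous_invFun := by fun_prop }
  exact ⟨((hiso h1).symm.trans a).trans (hiso h2)⟩

/-- **Main theorem.**  `βℕ` is the Stone-Čech compactification of the discrete space `ℕ`.
(1) `C(βℕ × βℕ × L × K)` and `C(βℕ × βℕ × L)` are isomorphic Banach spaces for every nonempty
compact metrizable space `K` and every compact Hausdorff space `L`.
(2) The same for powers: `C(βℕ^I × K)` and `C(βℕ^I)` are isomorphic for every set `I` with at least
two elements.
(3) `C(βℕ × βℕ × K)` is isomorphic to `C(βℕ × βℕ)`, so all these spaces are isomorphic to each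
other: no information on `K` can be recovered.
(4) The cancellation problem has a negative answer: the infinite compact metrizable spaces
`ω + 1` and `2^ℕ` have non-isomorphic spaces of continuous functions. -/
theorem result :
    (∀ (K L : Type) [TopologicalSpace K] [CompactSpace K] [MetrizableSpace K] [Nonempty K]
      [TopologicalSpace L] [CompactSpace L] [T2Space L],
      Nonempty (C(StoneCech ℕ × StoneCech ℕ × L × K, ℝ) ≃L[ℝ]
        C(StoneCech ℕ × StoneCech ℕ × L, ℝ))) ∧
    (∀ (I K : Type) [Nontrivial I] [TopologicalSpace K] [CompactSpace K] [MetrizableSpace K]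
      [Nonempty K], Nonempty (C((I → StoneCech ℕ) × K, ℝ) ≃L[ℝ] C(I → StoneCech ℕ, ℝ))) ∧
    (∀ (K : Type) [TopologicalSpace K] [CompactSpace K] [MetrizableSpace K] [Nonempty K],
      Nonempty (C(StoneCech ℕ × StoneCech ℕ × K, ℝ) ≃L[ℝ]
        C(StoneCech ℕ × StoneCech ℕ, ℝ))) ∧
    ¬ Nonempty (C(OnePoint ℕ, ℝ) ≃L[ℝ] C(ℕ → Bool, ℝ)) :=
  ⟨fun K L => one K L, fun I K => two I K, fun K => three K, fun ⟨T⟩ => noiso T⟩

end Pool.Agent.Results.MP_a6e7fb_an.AllMetrizable
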